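import Pool.Agent.S15649

set_option autoImplicit false

/-!
# Right random context rules are not needed in one-sided random context grammars

`Grammar T` is the type of one-sided random context grammars with terminal alphabet `T` (erasing
rules allowed), `Step` is the derivation relation and `language` the generated language, as in the
problem file. For every such grammar there is one which generates the same language and has no
right random context rule at all. So `k_min = 0`.

The proof uses the construction of `Pool/Agent/S15649.lean` (a problem on the number of right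
random context nonterminals), where the right rules which remain are context-free; these are left
rules with empty contexts.
-/

namespace Pool.Agent.Results.MP_05b2f7_lc.NoRightRules

/-- A one-sided random context grammar with terminal alphabet `T`: a finite set `N` of
nonterminals, a start symbol, and finite sets `PL`, `PR` of rules `(A → x, U, W)`. -/
structure Grammar (T : Type) where
  N : Type
  finite : Finite N
  S : N
  PL : Finset (N × List (Symbol T N) × Finset N × Finset N)
  PR : Finset (N × List (Symbol T N) × Finset N × Finset N)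

/-- One derivation step `u A v ⇒ u x v`: with a left rule `(A → x, U, W) ∈ PL` whose permitted
symbols `U` all occur in `u` and whose forbidden symbols `W` do not occur in `u`, or with a right
rule of `PR` for which this holds with `v` instead of `u`. -/
def Step {T : Type} (G : Grammar T) (α β : List (Symbol T G.N)) : Prop :=
  ∃ (u v : List (Symbol T G.N)) (A : G.N) (x : List (Symbol T G.N)) (U W : Finset G.N),
    α = u ++ [Symbol.nonterminal A] ++ v ∧ β = u ++ x ++ v ∧
    (((A, x, U, W) ∈ G.PL ∧ (∀ B ∈ U, Symbol.nonterminal B ∈ u) ∧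
        (∀ B ∈ W, Symbol.nonterminal B ∉ u)) ∨
     ((A, x, U, W) ∈ G.PR ∧ (∀ B ∈ U, Symbol.nonterminal B ∈ v) ∧
        (∀ B ∈ W, Symbol.nonterminal B ∉ v)))

/-- The language of a grammar: the terminal words derived from the start symbol. -/
def language {T : Type} (G : Grammar T) : Set (List T) :=
  {w | Relation.ReflTransGen (Step G) [Symbol.nonterminal G.S] (w.map Symbol.terminal)}

/-- Every one-sided random context grammar has an equivalent one without right rules. -/
theorem result (T : Type) [hT : Finite T] (G : Grammar T) :
    ∃ H : Grammar T, H.PR = ∅ ∧ language H = language G := by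
  classical
  obtain ⟨N', hN', S', PL', PR', h0, h⟩ :=
    Pool.Agent.S15649.result T G.N hT G.finite G.S G.PL G.PR
  refine ⟨⟨N', hN', S', PL' ∪ PR', ∅⟩, rfl, ?_⟩
  have e : (Step (T := T) ⟨N', hN', S', PL' ∪ PR', ∅⟩) =
      (fun (α β : List (Symbol T N')) =>
            ∃ (u v : List (Symbol T N')) (A : N') (x : List (Symbol T N')) (U W : Finset N'),
              α = u ++ [Symbol.nonterminal A] ++ v ∧ β = u ++ x ++ v ∧
              (((A, x, U, W) ∈ PL' ∧ (∀ B ∈ U, Symbol.nonterminal B ∈ u) ∧
                  (∀ B ∈ W, Symbol.nonterminal B ∉ u)) ∨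
               ((A, x, U, W) ∈ PR' ∧ (∀ B ∈ U, Symbol.nonterminal B ∈ v) ∧
                  (∀ B ∈ W, Symbol.nonterminal B ∉ v)))) := by
    funext α β
    apply propext
    constructor
    · rintro ⟨u, v, A, x, U, W, h1, h2, ⟨h3, h4, h5⟩ | ⟨h3, h4, h5⟩⟩
      · rcases Finset.mem_union.1 h3 with h6 | h6
        · exact ⟨u, v, A, x, U, W, h1, h2, Or.inl ⟨h6, h4, h5⟩⟩
        · obtain ⟨rfl, rfl⟩ := h0 A x U W h6
          exact ⟨u, v, A, x, ∅, ∅, h1, h2, Or.inr ⟨h6, by simp, by simp⟩⟩
      · exact absurd h3 (Finset.notMem_empty _)
    · rintro ⟨u, v, A, x, U, W, h1, h2, ⟨h3, h4, h5⟩ | ⟨h3, h4, h5⟩⟩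
      · exact ⟨u, v, A, x, U, W, h1, h2, Or.inl ⟨Finset.mem_union_left _ h3, h4, h5⟩⟩
      · obtain ⟨rfl, rfl⟩ := h0 A x U W h3
        exact ⟨u, v, A, x, ∅, ∅, h1, h2,
          Or.inl ⟨Finset.mem_union_right _ h3, by simp, by simp⟩⟩
  ext w
  change Relation.ReflTransGen (Step (T := T) ⟨N', hN', S', PL' ∪ PR', ∅⟩) _ _ ↔ _
  rw [e]
  exact (h w).symm

end Pool.Agent.Results.MP_05b2f7_lc.NoRightRules
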